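import Pool.Agent.H586.AF.E

/-!
# Task AH-SA: scaling limit of the function `aa` (helper880 for helper586)

`aa (L² t) (L² s) / L²` is the mean over a grid of a function that converges at every point and is
bounded; the mean is the integral of a step function, and dominated convergence applies.
-/

set_option autoImplicit false
set_option linter.unusedVariables false

open MeasureTheory Matrix Finset Filter Topology
open Pool.Agent.H586.AF

namespace Pool.Agent.H880.AH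

noncomputable section

namespace SA

/-! ### Riemann sums -/

/-- the index of the cell of `ξ` -/
def ix (L : ℕ) (ξ : ℝ) : ℕ := ⌈(L : ℝ) * ξ⌉₊ - 1

theorem ix_cell {L : ℕ} (hL : 1 ≤ L) (k : ℕ) {ξ : ℝ} (h : ξ ∈ Set.Ioc ((k : ℝ) / L) (((k + 1 : ℕ) : ℝ) / L)) :
    ix L ξ = k := by
  have hL0 : (0 : ℝ) < L := by exact_mod_cast hL
  have h1 := h.1
  have h2 := h.2
  rw [div_lt_iff₀ hL0] at h1
  rw [le_div_iff₀ hL0] at h2
  have h3 : ⌈(L : ℝ) * ξ⌉₊ = k + 1 := by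
    rw [Nat.ceil_eq_iff (by omega)]
    refine ⟨?_, ?_⟩
    · rw [Nat.add_sub_cancel, mul_comm]
      exact h1
    · rw [mul_comm]
      exact h2
  unfold ix
  rw [h3, Nat.add_sub_cancel]

theorem ix_lt {L : ℕ} (hL : 1 ≤ L) {ξ : ℝ} (h0 : 0 < ξ) (h : ξ ≤ 1) : ix L ξ < L := by
  have hL0 : (0 : ℝ) < L := by exact_mod_cast hL
  have h1 : ⌈(L : ℝ) * ξ⌉₊ ≤ L := by
    rw [Nat.ceil_le]
    nlinarith
  unfold ix
  omega

theorem ix_lim {ξ : ℝ} (h0 : 0 < ξ) : Tendsto (fun L : ℕ => (ix L ξ : ℝ) / L) atTop (𝓝 ξ) := by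
  have h1 : Tendsto (fun L : ℕ => (⌈ξ * (L : ℝ)⌉₊ : ℝ) / L) atTop (𝓝 ξ) :=
    (tendsto_nat_ceil_mul_div_atTop h0.le).comp tendsto_natCast_atTop_atTop
  have h2 : Tendsto (fun L : ℕ => (1 : ℝ) / L) atTop (𝓝 0) := tendsto_one_div_atTop_nhds_zero_nat
  have h3 := h1.sub h2
  rw [sub_zero] at h3
  refine h3.congr' ?_
  filter_upwards [eventually_ge_atTop 1] with L hL
  have hL0 : (0 : ℝ) < L := by exact_mod_cast hL
  have h4 : 0 < ⌈(L : ℝ) * ξ⌉₊ := by
    rw [Nat.ceil_pos]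
    positivity
  unfold ix
  rw [Nat.cast_sub h4, mul_comm ξ, Nat.cast_one, sub_div]

/-- sums as integrals of step functions -/
theorem sum_int (h : ℕ → ℝ) (L : ℕ) (hL : 1 ≤ L) :
    ∫ ξ in (0 : ℝ)..1, h (ix L ξ) = (∑ k ∈ Finset.range L, h k) / L := by
  have hL0 : (0 : ℝ) < L := by exact_mod_cast hL
  have hle : ∀ k : ℕ, (k : ℝ) / L ≤ ((k + 1 : ℕ) : ℝ) / L := by
    intro k
    gcongr
    exact Nat.le_succ k
  have hcongr : ∀ k : ℕ, Set.EqOn (fun ξ => h (ix L ξ)) (fun _ => h k)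
      (Set.Ioc ((k : ℝ) / L) (((k + 1 : ℕ) : ℝ) / L)) := by
    intro k ξ hξ
    simp only [ix_cell hL k hξ]
  have h1 := intervalIntegral.sum_integral_adjacent_intervals (f := fun ξ => h (ix L ξ)) (μ := volume)
    (a := fun k : ℕ => (k : ℝ) / L) (n := L) (by
      intro k _
      rw [intervalIntegrable_iff_integrableOn_Ioc_of_le (hle k)]
      rw [integrableOn_congr_fun (hcongr k) measurableSet_Ioc]
      exact integrableOn_const (by simp))
  simp only [Nat.cast_zero, zero_div] at h1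
  rw [div_self hL0.ne'] at h1
  rw [← h1, Finset.sum_div]
  refine Finset.sum_congr rfl fun k _ => ?_
  rw [intervalIntegral.integral_of_le (hle k), setIntegral_congr_fun measurableSet_Ioc (hcongr k),
    ← intervalIntegral.integral_of_le (hle k), intervalIntegral.integral_const, smul_eq_mul]
  push_cast
  field_simp
  ring

theorem ix_meas (h : ℕ → ℝ) (L : ℕ) : Measurable (fun ξ : ℝ => h (ix L ξ)) := by
  have h1 : Measurable (fun n : ℕ => h (n - 1)) := measurable_of_countable _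
  exact h1.comp (Nat.measurable_ceil.comp (measurable_const.mul measurable_id))

theorem riem1 (Φ : ℕ → ℕ → ℝ) (B : ℝ) (F : ℝ → ℝ)
    (hB : ∀ L : ℕ, 2 ≤ L → ∀ x, x < L → |Φ L x| ≤ B)
    (hF : ∀ ξ, 0 < ξ → ξ ≤ 1 → Tendsto (fun L => Φ L (ix L ξ)) atTop (𝓝 (F ξ))) :
    Tendsto (fun L : ℕ => (∑ x ∈ Finset.range L, Φ L x) / L) atTop (𝓝 (∫ ξ in (0 : ℝ)..1, F ξ)) := by
  have h1 : Tendsto (fun L : ℕ => ∫ ξ in (0 : ℝ)..1, Φ L (ix L ξ)) atTop
      (𝓝 (∫ ξ in (0 : ℝ)..1, F ξ)) := by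
    refine intervalIntegral.tendsto_integral_filter_of_dominated_convergence (fun _ => B) ?_ ?_ ?_ ?_
    · exact Eventually.of_forall fun L => (ix_meas (Φ L) L).aestronglyMeasurable
    · filter_upwards [eventually_ge_atTop 2] with L hL
      refine Eventually.of_forall fun ξ hξ => ?_
      rw [Set.uIoc_of_le zero_le_one] at hξ
      exact hB L hL _ (ix_lt (by omega) hξ.1 hξ.2)
    · exact intervalIntegrable_const
    · refine Eventually.of_forall fun ξ hξ => ?_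
      rw [Set.uIoc_of_le zero_le_one] at hξ
      exact hF ξ hξ.1 hξ.2
  refine h1.congr' ?_
  filter_upwards [eventually_ge_atTop 1] with L hL
  exact sum_int (Φ L) L hL

theorem riem2 (Φ : ℕ → ℕ → ℕ → ℝ) (B : ℝ) (F : ℝ → ℝ → ℝ)
    (hB : ∀ L : ℕ, 2 ≤ L → ∀ x y, x < L → y < L → |Φ L x y| ≤ B)
    (hF : ∀ ξ η, 0 < ξ → ξ ≤ 1 → 0 < η → η ≤ 1 →
      Tendsto (fun L => Φ L (ix L ξ) (ix L η)) atTop (𝓝 (F ξ η))) :
    Tendsto (fun L : ℕ => (∑ x ∈ Finset.range L, ∑ y ∈ Finset.range L, Φ L x y) / (L : ℝ) ^ 2) atTop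
      (𝓝 (∫ ξ in (0 : ℝ)..1, ∫ η in (0 : ℝ)..1, F ξ η)) := by
  have hin : ∀ ξ, 0 < ξ → ξ ≤ 1 → Tendsto (fun L : ℕ =>
      (fun x => (∑ y ∈ Finset.range L, Φ L x y) / (L : ℝ)) (ix L ξ)) atTop
      (𝓝 (∫ η in (0 : ℝ)..1, F ξ η)) := by
    intro ξ h0 h1
    -- make the first index admissible for all `L`
    have h2 := riem1 (fun L y => Φ L (ix L ξ) y) B (fun η => F ξ η)
      (fun L hL y hy => hB L hL _ _ (ix_lt (by omega) h0 h1) hy)
      (fun η h0' h1' => hF ξ η h0 h1 h0' h1')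
    exact h2
  have h3 := riem1 (fun L x => (∑ y ∈ Finset.range L, Φ L x y) / (L : ℝ)) B
    (fun ξ => ∫ η in (0 : ℝ)..1, F ξ η) (by
      intro L hL x hx
      have hL0 : (0 : ℝ) < L := by exact_mod_cast (by omega : 0 < L)
      rw [abs_div, abs_of_pos hL0, div_le_iff₀ hL0]
      refine (Finset.abs_sum_le_sum_abs _ _).trans ?_
      refine (Finset.sum_le_sum fun y hy => hB L hL x y hx (Finset.mem_range.1 hy)).trans ?_
      rw [Finset.sum_const, Finset.card_range, nsmul_eq_mul, mul_comm]) hin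
  refine h3.congr' ?_
  filter_upwards [eventually_ge_atTop 1] with L hL
  rw [← Finset.sum_div, div_div, sq]

/-! ### The heat kernel of the circle -/

theorem rr_neg (L : ℕ) (t : ℝ) (z : ℤ) : rr L t (-z) = rr L t z := by
  unfold rr
  congr 1
  refine Finset.sum_congr rfl fun n _ => ?_
  push_cast
  rw [mul_neg, Real.cos_neg]

theorem rr_add (L : ℕ) (hL : 1 ≤ L) (t : ℝ) (z : ℤ) : rr L t (z + 2 * L) = rr L t z := by
  have hL0 : (L : ℝ) ≠ 0 := by
    have : (1 : ℝ) ≤ L := by exact_mod_cast hL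
    positivity
  unfold rr
  congr 1
  refine Finset.sum_congr rfl fun n _ => ?_
  have h : Real.pi * n / L * ((z + 2 * L : ℤ) : ℝ) = Real.pi * n / L * z + n * (2 * Real.pi) := by
    push_cast
    field_simp
  rw [h, Real.cos_add_nat_mul_two_pi]

theorem quart (x : ℝ) : |x ^ 2 - (2 - 2 * Real.cos x)| ≤ x ^ 4 := by
  rcases le_or_gt |x| 1 with h | h
  · have h1 := Real.cos_bound h
    have e : x ^ 2 - (2 - 2 * Real.cos x) = 2 * (Real.cos x - (1 - x ^ 2 / 2)) := by ring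
    rw [e, abs_mul, abs_two]
    have e2 : |x| ^ 4 = x ^ 4 := by
      have : |x| ^ 4 = (|x| ^ 2) ^ 2 := by ring
      rw [this, sq_abs]; ring
    rw [e2] at h1
    have h4 : 0 ≤ x ^ 4 := by positivity
    linarith
  · have h1 := Real.one_sub_sq_div_two_le_cos (x := x)
    have h2 := Real.cos_le_one x
    have h3 : 1 ≤ x ^ 2 := by
      rw [← sq_abs]
      nlinarith
    rw [abs_le]
    constructor
    · nlinarith
    · nlinarith

theorem ek_ge {x : ℝ} (hx0 : 0 ≤ x) (hx : x ≤ Real.pi) : 4 / Real.pi ^ 2 * x ^ 2 ≤ ek x := by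
  have h := Real.cos_le_one_sub_mul_cos_sq (x := x) (by rw [abs_of_nonneg hx0]; exact hx)
  unfold ek
  have h2 : 4 / Real.pi ^ 2 * x ^ 2 = 2 * (2 / Real.pi ^ 2 * x ^ 2) := by ring
  rw [h2]
  linarith

/-- one term of the sum -/
def fn (t : ℝ) (z : ℤ) (L n : ℕ) : ℝ :=
  Real.exp (-((L : ℝ) ^ 2 * t) * ek (Real.pi * n / L)) * Real.cos (Real.pi * n / L * z)

/-- the folded sum -/
def un (t : ℝ) (z : ℤ) (L n : ℕ) : ℝ := if n < L then (fn t z L n + fn t z L (n + 1)) / 2 else 0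

theorem fn_refl (t : ℝ) (z : ℤ) {L n : ℕ} (hL : 1 ≤ L) (hn : n ≤ 2 * L) :
    fn t z L (2 * L - n) = fn t z L n := by
  have hL0 : (L : ℝ) ≠ 0 := by
    have : (1 : ℝ) ≤ L := by exact_mod_cast hL
    positivity
  unfold fn ek
  rw [Nat.cast_sub hn]
  push_cast
  have h1 : Real.pi * (2 * L - n) / L = 2 * Real.pi - Real.pi * n / L := by
    field_simp
  have h2 : Real.pi * (2 * L - n) / L * z = z * (2 * Real.pi) - Real.pi * n / L * z := by
    field_simp
  rw [h2, h1, Real.cos_two_pi_sub, Real.cos_int_mul_two_pi_sub]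

theorem fold (t : ℝ) (z : ℤ) {L : ℕ} (hL : 1 ≤ L) :
    L * rr L ((L : ℝ) ^ 2 * t) z = ∑' n, un t z L n := by
  have hL0 : (L : ℝ) ≠ 0 := by
    have : (1 : ℝ) ≤ L := by exact_mod_cast hL
    positivity
  have h1 : L * rr L ((L : ℝ) ^ 2 * t) z = (1 / 2) * ∑ n ∈ Finset.range (2 * L), fn t z L n := by
    unfold rr fn
    rw [← mul_assoc]
    congr 1
    field_simp
  have h2 : ∑ n ∈ Finset.range (2 * L), fn t z L n =
      ∑ n ∈ Finset.range L, (fn t z L n + fn t z L (n + 1)) := by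
    rw [two_mul, Finset.sum_range_add, Finset.sum_add_distrib]
    congr 1
    rw [← Finset.sum_range_reflect (fun n => fn t z L (L + n))]
    refine Finset.sum_congr rfl fun n hn => ?_
    rw [Finset.mem_range] at hn
    rw [← fn_refl t z hL (by omega : n + 1 ≤ 2 * L)]
    congr 1
    omega
  rw [h1, h2, tsum_eq_sum (s := Finset.range L), Finset.mul_sum]
  · refine Finset.sum_congr rfl fun n hn => ?_
    unfold un
    rw [if_pos (Finset.mem_range.1 hn)]
    ring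
  · intro n hn
    unfold un
    rw [if_neg (by simpa using hn)]

theorem fn_le {t : ℝ} (ht : 0 < t) (z : ℤ) {L n : ℕ} (hL : 1 ≤ L) (hn : n ≤ L) :
    |fn t z L n| ≤ Real.exp (-4 * t) ^ n := by
  have hL1 : (1 : ℝ) ≤ L := by exact_mod_cast hL
  have hL0 : (0 : ℝ) < L := by linarith
  have hpi := Real.pi_pos
  have hnL : (n : ℝ) ≤ L := by exact_mod_cast hn
  unfold fn
  rw [abs_mul, Real.abs_exp, ← Real.exp_nat_mul]
  refine (mul_le_of_le_one_right (Real.exp_pos _).le (Real.abs_cos_le_one _)).trans ?_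
  rw [Real.exp_le_exp]
  have h1 : 4 / Real.pi ^ 2 * (Real.pi * n / L) ^ 2 ≤ ek (Real.pi * n / L) := by
    refine ek_ge (by positivity) ?_
    rw [div_le_iff₀ hL0]
    nlinarith
  have h2 : (L : ℝ) ^ 2 * (4 / Real.pi ^ 2 * (Real.pi * n / L) ^ 2) = 4 * (n : ℝ) ^ 2 := by
    field_simp
  have h3 : (n : ℝ) ≤ (n : ℝ) ^ 2 := by
    have : n ≤ n ^ 2 := Nat.le_self_pow (by norm_num) n
    exact_mod_cast this
  have h4 : 4 * (n : ℝ) ^ 2 ≤ (L : ℝ) ^ 2 * ek (Real.pi * n / L) := by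
    rw [← h2]
    exact mul_le_mul_of_nonneg_left h1 (by positivity)
  have h5 : 4 * (n : ℝ) * t ≤ (L : ℝ) ^ 2 * ek (Real.pi * n / L) * t :=
    mul_le_mul_of_nonneg_right (by linarith) ht.le
  nlinarith

theorem un_le {t : ℝ} (ht : 0 < t) (z : ℤ) {L : ℕ} (hL : 1 ≤ L) (n : ℕ) :
    |un t z L n| ≤ Real.exp (-4 * t) ^ n := by
  have h0 : 0 ≤ Real.exp (-4 * t) := (Real.exp_pos _).le
  have h1 : Real.exp (-4 * t) ≤ 1 := by
    rw [Real.exp_le_one_iff]
    linarith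
  unfold un
  split_ifs with h
  · have e1 := fn_le ht z hL h.le
    have e2 := fn_le ht z hL (show n + 1 ≤ L from h)
    have e3 : Real.exp (-4 * t) ^ (n + 1) ≤ Real.exp (-4 * t) ^ n :=
      pow_le_pow_of_le_one h0 h1 (Nat.le_succ n)
    rw [abs_div, abs_two]
    have e4 := abs_add_le (fn t z L n) (fn t z L (n + 1))
    linarith
  · rw [abs_zero]
    exact pow_nonneg h0 n

theorem exp_lt {t : ℝ} (ht : 0 < t) : Real.exp (-4 * t) < 1 := by
  rw [Real.exp_lt_one_iff]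
  linarith

/-- the bound -/
def Bd (t : ℝ) : ℝ := ∑' n : ℕ, Real.exp (-4 * t) ^ n

theorem summ {t : ℝ} (ht : 0 < t) : Summable fun n : ℕ => Real.exp (-4 * t) ^ n :=
  summable_geometric_of_lt_one (Real.exp_pos _).le (exp_lt ht)

theorem rr_bd {t : ℝ} (ht : 0 < t) (z : ℤ) {L : ℕ} (hL : 1 ≤ L) :
    |L * rr L ((L : ℝ) ^ 2 * t) z| ≤ Bd t := by
  rw [fold t z hL]
  have h1 : Summable fun n => ‖un t z L n‖ :=
    Summable.of_nonneg_of_le (fun n => norm_nonneg _) (fun n => un_le ht z hL n) (summ ht)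
  refine (norm_tsum_le_tsum_norm h1).trans ?_
  exact h1.tsum_le_tsum (fun n => un_le ht z hL n) (summ ht)

theorem Bd_nonneg (t : ℝ) : 0 ≤ Bd t := tsum_nonneg fun n => pow_nonneg (Real.exp_pos _).le n

theorem ek_lim (c : ℝ) : Tendsto (fun L : ℕ => (L : ℝ) ^ 2 * ek (c / L)) atTop (𝓝 (c ^ 2)) := by
  have h1 : Tendsto (fun L : ℕ => c ^ 4 * ((1 : ℝ) / L) ^ 2) atTop (𝓝 0) := by
    have := (tendsto_one_div_atTop_nhds_zero_nat (𝕜 := ℝ)).pow 2
    have h2 := this.const_mul (c ^ 4)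
    simpa using h2
  rw [← tendsto_sub_nhds_zero_iff]
  refine squeeze_zero_norm' ?_ h1
  filter_upwards [eventually_ge_atTop 1] with L hL
  have hL0 : (0 : ℝ) < L := by exact_mod_cast hL
  have h2 := quart (c / L)
  have h3 : (L : ℝ) ^ 2 * ek (c / L) - c ^ 2 = -((L : ℝ) ^ 2 * ((c / L) ^ 2 - (2 - 2 * Real.cos (c / L)))) := by
    unfold ek
    field_simp
    ring
  rw [Real.norm_eq_abs, h3, abs_neg, abs_mul, abs_of_pos (by positivity : (0 : ℝ) < (L : ℝ) ^ 2)]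
  calc (L : ℝ) ^ 2 * |(c / L) ^ 2 - (2 - 2 * Real.cos (c / L))| ≤ (L : ℝ) ^ 2 * (c / L) ^ 4 :=
        mul_le_mul_of_nonneg_left h2 (by positivity)
    _ = c ^ 4 * ((1 : ℝ) / L) ^ 2 := by field_simp

/-- the limit of one term -/
def gn (t ζ : ℝ) (n : ℕ) : ℝ := Real.exp (-(t * (Real.pi * n) ^ 2)) * Real.cos (Real.pi * n * ζ)

theorem fn_lim (t ζ : ℝ) (z : ℕ → ℤ) (hz : Tendsto (fun L : ℕ => (z L : ℝ) / L) atTop (𝓝 ζ)) (n : ℕ) :
    Tendsto (fun L => fn t (z L) L n) atTop (𝓝 (gn t ζ n)) := by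
  unfold gn
  refine Tendsto.mul ?_ ?_
  · have h1 := (ek_lim (Real.pi * n)).const_mul (-t)
    have h2 := (Real.continuous_exp.tendsto _).comp h1
    rw [show -(t * (Real.pi * n) ^ 2) = -t * (Real.pi * n) ^ 2 by ring]
    refine h2.congr fun L => ?_
    show Real.exp _ = Real.exp _
    congr 1
    ring
  · have h1 := hz.const_mul (Real.pi * n)
    have h2 := (Real.continuous_cos.tendsto _).comp h1
    refine h2.congr fun L => ?_
    show Real.cos _ = Real.cos _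
    congr 1
    ring

/-- the limit -/
def qq (t ζ : ℝ) : ℝ := ∑' n : ℕ, (gn t ζ n + gn t ζ (n + 1)) / 2

theorem rr_lim {t : ℝ} (ht : 0 < t) (ζ : ℝ) (z : ℕ → ℤ)
    (hz : Tendsto (fun L : ℕ => (z L : ℝ) / L) atTop (𝓝 ζ)) :
    Tendsto (fun L : ℕ => L * rr L ((L : ℝ) ^ 2 * t) (z L)) atTop (𝓝 (qq t ζ)) := by
  have h1 : Tendsto (fun L : ℕ => ∑' n, un t (z L) L n) atTop (𝓝 (qq t ζ)) := by
    refine tendsto_tsum_of_dominated_convergence (summ ht) ?_ ?_
    · intro n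
      have h2 := ((fn_lim t ζ z hz n).add (fn_lim t ζ z hz (n + 1))).div_const 2
      refine h2.congr' ?_
      filter_upwards [eventually_gt_atTop n] with L hL
      unfold un
      rw [if_pos hL]
    · filter_upwards [eventually_ge_atTop 1] with L hL n
      exact un_le ht (z L) hL n
  refine h1.congr' ?_
  filter_upwards [eventually_ge_atTop 1] with L hL
  exact (fold t (z L) hL).symm

/-! ### The sum -/

/-- the function on the grid -/
def Ph (σ : ℝ) (c : ℕ) (t s : ℝ) (L x y : ℕ) : ℝ :=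
  (((x : ℝ) - y) / L) ^ 2 *
    (L * rr L ((L : ℝ) ^ 2 * t) ((x : ℤ) - y) + σ * (L * rr L ((L : ℝ) ^ 2 * t) ((x : ℤ) + y + c))) *
    (L * rr L ((L : ℝ) ^ 2 * s) ((x : ℤ) - y) + σ * (L * rr L ((L : ℝ) ^ 2 * s) ((x : ℤ) + y + c)))

theorem two_bd {σ t : ℝ} (hσ : |σ| ≤ 1) (ht : 0 < t) (z z' : ℤ) {L : ℕ} (hL : 1 ≤ L) :
    |L * rr L ((L : ℝ) ^ 2 * t) z + σ * (L * rr L ((L : ℝ) ^ 2 * t) z')| ≤ 2 * Bd t := by
  have h1 := rr_bd ht z hL
  have h2 := rr_bd ht z' hL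
  have h3 : |σ * (L * rr L ((L : ℝ) ^ 2 * t) z')| ≤ Bd t := by
    rw [abs_mul]
    calc |σ| * |L * rr L ((L : ℝ) ^ 2 * t) z'| ≤ 1 * Bd t :=
          mul_le_mul hσ h2 (abs_nonneg _) zero_le_one
      _ = Bd t := one_mul _
  have h4 := abs_add_le (L * rr L ((L : ℝ) ^ 2 * t) z) (σ * (L * rr L ((L : ℝ) ^ 2 * t) z'))
  linarith

theorem main {σ : ℝ} (hσ : |σ| ≤ 1) (c : ℕ) {t s : ℝ} (ht : 0 < t) (hs : 0 < s) :
    ∃ l, Tendsto (fun L : ℕ => (∑ x ∈ Finset.range L, ∑ y ∈ Finset.range L, Ph σ c t s L x y) /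
      (L : ℝ) ^ 2) atTop (𝓝 l) := by
  refine ⟨_, riem2 (Ph σ c t s) (1 * (2 * Bd t) * (2 * Bd s))
    (fun ξ η => (ξ - η) ^ 2 * (qq t (ξ - η) + σ * qq t (ξ + η)) * (qq s (ξ - η) + σ * qq s (ξ + η)))
    ?_ ?_⟩
  · intro L hL x y hx hy
    have hL1 : 1 ≤ L := by omega
    have hL0 : (0 : ℝ) < L := by exact_mod_cast hL1
    have hx' : (x : ℝ) < L := by exact_mod_cast hx
    have hy' : (y : ℝ) < L := by exact_mod_cast hy
    have hx0 : (0 : ℝ) ≤ x := Nat.cast_nonneg x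
    have hy0 : (0 : ℝ) ≤ y := Nat.cast_nonneg y
    have h1 : |(((x : ℝ) - y) / L) ^ 2| ≤ 1 := by
      rw [abs_pow]
      refine pow_le_one₀ (abs_nonneg _) ?_
      rw [abs_div, abs_of_pos hL0, div_le_one hL0, abs_le]
      constructor <;> linarith
    unfold Ph
    rw [abs_mul, abs_mul]
    have hBt := Bd_nonneg t
    have hBs := Bd_nonneg s
    refine mul_le_mul (mul_le_mul h1 (two_bd hσ ht _ _ hL1) (abs_nonneg _) zero_le_one)
      (two_bd hσ hs _ _ hL1) (abs_nonneg _) (by positivity)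
  · intro ξ η h0 h1 h0' h1'
    have hx := ix_lim h0
    have hy := ix_lim h0'
    have hm : Tendsto (fun L : ℕ => ((ix L ξ : ℝ) - ix L η) / L) atTop (𝓝 (ξ - η)) := by
      refine (hx.sub hy).congr fun L => ?_
      rw [sub_div]
    have hc : Tendsto (fun L : ℕ => (c : ℝ) * ((1 : ℝ) / L)) atTop (𝓝 0) := by
      have := (tendsto_one_div_atTop_nhds_zero_nat (𝕜 := ℝ)).const_mul (c : ℝ)
      simpa using this
    have hz1 : Tendsto (fun L : ℕ => ((((ix L ξ : ℕ) : ℤ) - (ix L η : ℕ) : ℤ) : ℝ) / L) atTop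
        (𝓝 (ξ - η)) := by
      refine hm.congr fun L => ?_
      push_cast
      rfl
    have hz2 : Tendsto (fun L : ℕ => ((((ix L ξ : ℕ) : ℤ) + (ix L η : ℕ) + c : ℤ) : ℝ) / L) atTop
        (𝓝 (ξ + η)) := by
      have h2 := (hx.add hy).add hc
      rw [add_zero] at h2
      refine h2.congr fun L => ?_
      push_cast
      rw [add_div, add_div]
      ring
    unfold Ph
    exact ((hm.pow 2).mul ((rr_lim ht _ _ hz1).add ((rr_lim ht _ _ hz2).const_mul σ))).mul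
      ((rr_lim hs _ _ hz1).add ((rr_lim hs _ _ hz2).const_mul σ))

/-- the entries vanish at the right end -/
theorem edge (t : ℝ) {L : ℕ} (hL : 2 ≤ L) (y : ℤ) :
    rr L t (((L - 1 : ℕ) : ℤ) - y) - rr L t (((L - 1 : ℕ) : ℤ) + y + 2) = 0 := by
  have h1 : rr L t (((L - 1 : ℕ) : ℤ) - y) = rr L t (((L - 1 : ℕ) : ℤ) + y + 2) := by
    rw [← rr_neg L t (((L - 1 : ℕ) : ℤ) - y), ← rr_add L (by omega) t (-(((L - 1 : ℕ) : ℤ) - y))]
    congr 1
    rw [Nat.cast_sub (by omega : 1 ≤ L)]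
    push_cast
    ring
  rw [h1, sub_self]

theorem edge' (t : ℝ) {L : ℕ} (hL : 2 ≤ L) (y : ℤ) :
    rr L t (y - ((L - 1 : ℕ) : ℤ)) - rr L t (y + ((L - 1 : ℕ) : ℤ) + 2) = 0 := by
  have h := edge t hL y
  rw [← rr_neg L t (((L - 1 : ℕ) : ℤ) - y), neg_sub, add_comm (((L - 1 : ℕ) : ℤ)) y] at h
  exact h

end SA

open SA in
theorem tsa (hR : S_R) : Pool.Agent.H586.AF.EE.S_SA := by
  intro t s ht hs
  constructor
  · obtain ⟨l, hl⟩ := main (σ := -1) (by simp) 2 ht hs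
    refine ⟨l, hl.congr' ?_⟩
    filter_upwards [eventually_ge_atTop 2] with L hL
    have hL0 : (0 : ℝ) < L := by exact_mod_cast (by omega : 0 < L)
    congr 1
    have hPh : ∀ x y : ℕ, Ph (-1) 2 t s L x y = ((x : ℝ) - y) ^ 2 *
        (rr L ((L : ℝ) ^ 2 * t) ((x : ℤ) - y) - rr L ((L : ℝ) ^ 2 * t) ((x : ℤ) + y + 2)) *
        (rr L ((L : ℝ) ^ 2 * s) ((x : ℤ) - y) - rr L ((L : ℝ) ^ 2 * s) ((x : ℤ) + y + 2)) := by
      intro x y
      unfold Ph
      push_cast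
      field_simp
      ring
    have h1 : ∑ x ∈ Finset.range L, ∑ y ∈ Finset.range L, Ph (-1) 2 t s L x y =
        ∑ x ∈ Finset.range (L - 1), ∑ y ∈ Finset.range (L - 1), Ph (-1) 2 t s L x y := by
      obtain ⟨m, hm⟩ : ∃ m, L = m + 1 := ⟨L - 1, by omega⟩
      have hm' : L - 1 = m := by omega
      have hrow : ∀ y : ℕ, Ph (-1) 2 t s L m y = 0 := by
        intro y
        rw [hPh, ← hm', edge _ hL, mul_zero, zero_mul]
      have hcol : ∀ x : ℕ, Ph (-1) 2 t s L x m = 0 := by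
        intro x
        rw [hPh, ← hm', edge' _ hL, mul_zero, zero_mul]
      rw [hm']
      have h2 : Finset.range L = Finset.range (m + 1) := by rw [hm]
      rw [h2, Finset.sum_range_succ, Finset.sum_eq_zero (s := Finset.range (m + 1)) (fun y _ => hrow y),
        add_zero]
      refine Finset.sum_congr rfl fun x _ => ?_
      rw [Finset.sum_range_succ, hcol, add_zero]
    rw [h1]
    unfold aa
    rw [← Fin.sum_univ_eq_sum_range (fun x => ∑ y ∈ Finset.range (L - 1), Ph (-1) 2 t s L x y) (L - 1)]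
    refine Finset.sum_congr rfl fun x _ => ?_
    rw [← Fin.sum_univ_eq_sum_range (fun y => Ph (-1) 2 t s L x y) (L - 1)]
    refine Finset.sum_congr rfl fun y _ => ?_
    rw [hPh, (hR L hL _).1, (hR L hL _).1]
  · obtain ⟨l, hl⟩ := main (σ := 1) (by simp) 1 ht hs
    refine ⟨l, hl.congr' ?_⟩
    filter_upwards [eventually_ge_atTop 2] with L hL
    have hL0 : (0 : ℝ) < L := by exact_mod_cast (by omega : 0 < L)
    congr 1
    have hPh : ∀ x y : ℕ, Ph 1 1 t s L x y = ((x : ℝ) - y) ^ 2 *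
        (rr L ((L : ℝ) ^ 2 * t) ((x : ℤ) - y) + rr L ((L : ℝ) ^ 2 * t) ((x : ℤ) + y + 1)) *
        (rr L ((L : ℝ) ^ 2 * s) ((x : ℤ) - y) + rr L ((L : ℝ) ^ 2 * s) ((x : ℤ) + y + 1)) := by
      intro x y
      unfold Ph
      push_cast
      field_simp
    unfold aa
    rw [← Fin.sum_univ_eq_sum_range (fun x => ∑ y ∈ Finset.range L, Ph 1 1 t s L x y) L]
    refine Finset.sum_congr rfl fun x _ => ?_
    rw [← Fin.sum_univ_eq_sum_range (fun y => Ph 1 1 t s L x y) L]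
    refine Finset.sum_congr rfl fun y _ => ?_
    rw [hPh, (hR L hL _).2, (hR L hL _).2]

end

end Pool.Agent.H880.AH

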